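import Pool.Agent.SPK.Apex

/-! Signed graphs in C10 or C11 of negative girth g pack when the deletion of a vertex, or of a
safe set of vertices, leaves a signed graph that maps to the negative cycle of length g. -/

namespace Pool.Agent.Results.MP_1e4275_co.ApexOverNegativeCycle

theorem result {V E : Type*} [Fintype V] [DecidableEq V] (G : SPK.SignedGraph V E)
    (hG : G.C10 ∨ G.C11) (g : ℕ) (hg : G.NegGirth g) (Z : Set V) (ε : V → Bool)
    (hZ : G.Safe g Z ε ∨ ∃ p, Z = {p}) (h : V → ZMod (2 * g))
    (hh : ∀ e, G.src e ∉ Z → G.dst e ∉ Z →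
      h (G.dst e) = h (G.src e) + (if G.neg e then (g : ZMod (2 * g)) else 0) + 1 ∨
      h (G.dst e) = h (G.src e) + (if G.neg e then (g : ZMod (2 * g)) else 0) - 1) :
    IsGreatest {k | G.PacksInto k} g := by
  have hZ' : G.Safe g Z ε := by
    rcases hZ with h1 | ⟨p, h1⟩
    · exact h1
    · rw [h1]
      exact SPK.safe_singleton G hG g hg p ε
  exact SPK.apex_main G hG g hg Z ε hZ' h hh

end Pool.Agent.Results.MP_1e4275_co.ApexOverNegativeCycle
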