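import Pool.Agent.SPK.FinalFour

/-! Signed graphs in C10 or C11, of any negative girth other than four, pack when the underlying
graph is a subgraph of a graph glued along cliques with at most three vertices from complete graphs
on at most four vertices and closed pieces bounded by quadrilaterals. -/

namespace Pool.Agent.Results.MP_1e4275_co.FourRings

theorem result {V E : Type*} [Fintype V] [DecidableEq V] (G : SPK.SignedGraph V E)
    (hG : G.C10 ∨ G.C11) (g : ℕ) (hg : G.NegGirth g) (S : Finset V) (K : SimpleGraph V)
    (hK : (g ≠ 4 ∧ SPK.Built4 S K) ∨ SPK.Built S K) (hsub : ∀ e, K.Adj (G.src e) (G.dst e)) :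
    IsGreatest {k | G.PacksInto k} g :=
  SPK.main4 G hG g hg S K hK hsub

end Pool.Agent.Results.MP_1e4275_co.FourRings
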